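import Mathlib

namespace Pool.Agent.Results.MP_a0e599_al.Vanishing

open ExteriorAlgebra Finset

variable {K : Type} [Field K] {n : ℕ} {V : Type} [AddCommGroup V] [Module K V]

/-- the square-free monomial `x_S` (wedge of the basis vectors in increasing order) -/
noncomputable def mono (x : Module.Basis (Fin n) K V) (S : Finset (Fin n)) : ExteriorAlgebra K V :=
  ιMulti K S.card fun j => x (S.orderEmbOfFin rfl j)

/-- the form of degree `d` with coefficients `c` -/
noncomputable def form (x : Module.Basis (Fin n) K V) {d : ℕ}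
    (c : {S : Finset (Fin n) // S.card = d} → K) : ExteriorAlgebra K V :=
  ∑ S, c S • mono x S.1

/-- `g` is homogeneous of degree `r` -/
def InDeg (r : ℕ) (g : ExteriorAlgebra K V) : Prop := g ∈ ⋀[K]^r V

/-- the homology in degree `r` of multiplication by `f` (of degree `d`) vanishes -/
def HomologyZero (f : ExteriorAlgebra K V) (d r : ℕ) : Prop :=
  ∀ g, InDeg r g → f * g = 0 →
    (r < d → g = 0) ∧ (d ≤ r → ∃ h, InDeg (r - d) h ∧ g = f * h)

variable {β : Module.Basis (Fin n) K V}

/-- the monomial basis -/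
noncomputable def B (β : Module.Basis (Fin n) K V) :
    Module.Basis (Finset (Fin n)) K (ExteriorAlgebra K V) := β.ExteriorAlgebra

theorem B_eq (S : Finset (Fin n)) : B β S = mono β S := by
  rw [B, ExteriorAlgebra.basis_apply, mono, ιMulti_family]
  congr 1

theorem mono_mem (S : Finset (Fin n)) : mono β S ∈ ⋀[K]^S.card V :=
  ιMulti_range K _ ⟨_, rfl⟩

theorem mul_nd {S T : Finset (Fin n)} (h : ¬ Disjoint S T) : mono β S * mono β T = 0 := by
  rw [← B_eq, ← B_eq]
  exact ExteriorAlgebra.basis_mul_of_not_disjoint β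
    (Set.powersetCard.ofCard (s := S) rfl) (Set.powersetCard.ofCard (s := T) rfl) h

theorem mul_d {S T : Finset (Fin n)} (h : Disjoint S T) :
    ∃ e : ℤ, e * e = 1 ∧ mono β S * mono β T = (e : K) • mono β (S ∪ T) := by
  have := ExteriorAlgebra.basis_mul_of_disjoint β
    (Set.powersetCard.ofCard (s := S) rfl) (Set.powersetCard.ofCard (s := T) rfl) h
  rw [Set.powersetCard.coe_disjUnion, Finset.disjUnion_eq_union] at this
  refine ⟨_, Int.units_coe_mul_self (Set.powersetCard.permOfDisjoint
    (s := Set.powersetCard.ofCard (s := S) rfl) (t := Set.powersetCard.ofCard (s := T) rfl)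
    h).sign, ?_⟩
  rw [← B_eq, ← B_eq, ← B_eq, Int.cast_smul_eq_zsmul]
  exact this

theorem i_comm (v : V) (l : List V) :
    ι K v * (l.map (ι K)).prod = (-1 : K) ^ l.length • ((l.map (ι K)).prod * ι K v) := by
  induction l with
  | nil => simp
  | cons a l ih =>
    have : ι K v * ι K a = -(ι K a * ι K v) := eq_neg_of_add_eq_zero_left (ι_add_mul_swap v a)
    rw [List.map_cons, List.prod_cons, ← mul_assoc, this, neg_mul, mul_assoc, ih, List.length_cons,
      pow_succ, mul_smul_comm, mul_assoc]
    simp

theorem l_comm (m l : List V) : (m.map (ι K)).prod * (l.map (ι K)).prod =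
    (-1 : K) ^ (l.length * m.length) • ((l.map (ι K)).prod * (m.map (ι K)).prod) := by
  induction m with
  | nil => simp
  | cons a m ih =>
    rw [List.map_cons, List.prod_cons, mul_assoc, ih, mul_smul_comm, ← mul_assoc, i_comm,
      smul_mul_assoc, smul_smul, ← pow_add, mul_assoc, List.length_cons, mul_add, mul_one]

theorem anti {S T : Finset (Fin n)} (hS : Odd S.card) (hT : Odd T.card) :
    mono β S * mono β T = -(mono β T * mono β S) := by
  have e : ∀ S : Finset (Fin n), ∃ l : List V, l.length = S.card ∧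
      mono β S = (l.map (ι K)).prod := fun S =>
    ⟨List.ofFn fun j => β (S.orderEmbOfFin rfl j), by simp, by
      rw [mono, ιMulti_apply, List.map_ofFn]; rfl⟩
  obtain ⟨a, a1, a2⟩ := e S
  obtain ⟨b, b1, b2⟩ := e T
  rw [a2, b2, l_comm, a1, b1, (hT.mul hS).neg_one_pow, neg_one_smul]

theorem expand {r : ℕ} {g : ExteriorAlgebra K V} (hg : g ∈ ⋀[K]^r V) :
    ∃ a : {S : Finset (Fin n) // S.card = r} → K, g = form β a := by
  let b := β.exteriorPower r
  refine ⟨fun S => b.repr ⟨g, hg⟩ (Set.powersetCard.ofCard S.2), ?_⟩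
  have h := congrArg Subtype.val (b.sum_repr ⟨g, hg⟩)
  simp only [Submodule.coe_sum, Submodule.coe_smul] at h
  refine h.symm.trans ?_
  refine Finset.sum_bij (fun S _ => ⟨S.1, S.2⟩) (by simp)
    (fun a _ b _ e => Subtype.ext (congrArg Subtype.val e))
    (fun S _ => ⟨⟨S.1, S.2⟩, by simp, rfl⟩) fun S _ => ?_
  rw [← B_eq, ← ExteriorAlgebra.basis_eq_coe_basis]
  rfl

/-- sign of the splitting -/
noncomputable def sg (β : Module.Basis (Fin n) K V) (U S : Finset (Fin n)) : ℤ :=
  (mul_d (β := β) (S := U) (T := S \ U) disjoint_sdiff).choose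

theorem sg_spec (U S : Finset (Fin n)) : sg β U S * sg β U S = 1 ∧
    mono β U * mono β (S \ U) = (sg β U S : K) • mono β (U ∪ S \ U) :=
  (mul_d (β := β) (S := U) (T := S \ U) disjoint_sdiff).choose_spec

/-- contraction with a block -/
noncomputable def ct (β : Module.Basis (Fin n) K V) (U : Finset (Fin n)) :
    Module.End K (ExteriorAlgebra K V) :=
  (B β).constr K fun S => if U ⊆ S then (sg β U S : K) • mono β (S \ U) else 0

theorem ct_mono (U S : Finset (Fin n)) :
    ct β U (mono β S) = if U ⊆ S then (sg β U S : K) • mono β (S \ U) else 0 := by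
  rw [← B_eq, ct, Module.Basis.constr_basis]

theorem sq_cast {e : ℤ} (h : e * e = 1) : (e : K) * e = 1 := by exact_mod_cast congrArg (Int.cast : ℤ → K) h

theorem split {U S : Finset (Fin n)} (h : U ⊆ S) :
    mono β S = (sg β U S : K) • (mono β U * mono β (S \ U)) := by
  rw [(sg_spec U S).2, smul_smul, sq_cast (sg_spec U S).1, one_smul, union_sdiff_of_subset h]

theorem ct_mul {U T : Finset (Fin n)} (h : Disjoint U T) :
    ct β U (mono β U * mono β T) = mono β T := by
  have e : (U ∪ T) \ U = T := union_sdiff_cancel_left h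
  have := (sg_spec (β := β) U (U ∪ T)).2
  rw [e] at this
  rw [this, map_smul, ct_mono, if_pos subset_union_left, e, smul_smul, sq_cast (sg_spec _ _).1,
    one_smul]

theorem diag (U S : Finset (Fin n)) : mono β U * ct β U (mono β S) + ct β U (mono β U * mono β S) =
    (((if U ⊆ S then 1 else 0) + if Disjoint U S then 1 else 0 : ℕ) : K) • mono β S := by
  push_cast
  rw [add_smul]
  congr 1
  · rw [ct_mono]
    split_ifs with h
    · rw [mul_smul_comm, ← split h, one_smul]
    · simp
  · split_ifs with h
    · rw [ct_mul h, one_smul]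
    · simp [mul_nd h]

theorem offdiag {U U' : Finset (Fin n)} (h : Disjoint U U') (o : Odd U.card) (o' : Odd U'.card)
    (S : Finset (Fin n)) :
    mono β U' * ct β U (mono β S) + ct β U (mono β U' * mono β S) = 0 := by
  by_cases h1 : U ⊆ S
  · by_cases h2 : Disjoint U' (S \ U)
    · obtain ⟨e, -, he⟩ := mul_d (β := β) h2
      have d : Disjoint U (U' ∪ S \ U) := disjoint_union_right.2 ⟨h, disjoint_sdiff⟩
      rw [ct_mono, if_pos h1]
      conv_lhs => rw [split (β := β) h1]
      rw [mul_smul_comm, mul_smul_comm, ← mul_assoc, anti o' o, neg_mul, mul_assoc, he,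
        mul_smul_comm, map_smul, map_neg, map_smul, ct_mul d]
      simp
    · have h3 : ¬ Disjoint U' S := fun h4 => h2 (h4.mono_right sdiff_subset)
      rw [ct_mono, if_pos h1, mul_smul_comm, mul_nd h2, mul_nd h3]
      simp
  · rw [ct_mono, if_neg h1]
    by_cases h2 : Disjoint U' S
    · obtain ⟨e, -, he⟩ := mul_d (β := β) h2
      rw [he, map_smul, ct_mono, if_neg]
      · simp
      · intro h3
        exact h1 fun x hx => (mem_union.1 (h3 hx)).resolve_left (disjoint_left.1 h hx)
    · simp [mul_nd h2]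

/-- elements with integer coordinates -/
def Lat (β : Module.Basis (Fin n) K V) : AddSubgroup (ExteriorAlgebra K V) :=
  AddSubgroup.closure (Set.range (mono β))

theorem Lat_int {x : ExteriorAlgebra K V} (hx : x ∈ Lat β) (T : Finset (Fin n)) :
    ∃ z : ℤ, (B β).repr x T = z := by
  induction hx using AddSubgroup.closure_induction with
  | mem x hx =>
    obtain ⟨S, rfl⟩ := hx
    rw [← B_eq, Module.Basis.repr_self, Finsupp.single_apply]
    split_ifs
    · exact ⟨1, by simp⟩
    · exact ⟨0, by simp⟩
  | zero => exact ⟨0, by simp⟩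
  | add x y _ _ h1 h2 =>
    obtain ⟨a, ha⟩ := h1
    obtain ⟨b, hb⟩ := h2
    exact ⟨a + b, by simp [ha, hb]⟩
  | neg x _ h1 =>
    obtain ⟨a, ha⟩ := h1
    exact ⟨-a, by simp [ha]⟩

theorem Lat_smul (e : ℤ) (S : Finset (Fin n)) : (e : K) • mono β S ∈ Lat β := by
  rw [Int.cast_smul_eq_zsmul]
  exact AddSubgroup.zsmul_mem _ (AddSubgroup.subset_closure (Set.mem_range_self S)) e

theorem Lat_map (φ : Module.End K (ExteriorAlgebra K V))
    (h : ∀ S, φ (mono β S) ∈ Lat β) {x : ExteriorAlgebra K V} (hx : x ∈ Lat β) :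
    φ x ∈ Lat β := by
  induction hx using AddSubgroup.closure_induction with
  | mem x hx => obtain ⟨S, rfl⟩ := hx; exact h S
  | zero => simp
  | add x y _ _ h1 h2 => rw [map_add]; exact add_mem h1 h2
  | neg x _ h1 => rw [map_neg]; exact neg_mem h1

theorem Lat_mul (S T : Finset (Fin n)) : mono β S * mono β T ∈ Lat β := by
  by_cases h : Disjoint S T
  · obtain ⟨e, -, he⟩ := mul_d (β := β) h
    rw [he]
    exact Lat_smul _ _
  · rw [mul_nd h]
    exact zero_mem _

theorem Lat_ct (U S : Finset (Fin n)) : ct β U (mono β S) ∈ Lat β := by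
  rw [ct_mono]
  split_ifs
  · exact Lat_smul _ _
  · exact zero_mem _

theorem form_mem {d : ℕ} (c : {S : Finset (Fin n) // S.card = d} → K) :
    form β c ∈ ⋀[K]^d V :=
  Submodule.sum_mem _ fun S _ => Submodule.smul_mem _ _ (by
    have := mono_mem (β := β) S.1
    rwa [S.2] at this)

theorem form_sq [CharZero K] {d : ℕ} (hd : Odd d) (c : {S : Finset (Fin n) // S.card = d} → K) :
    form β c * form β c = 0 := by
  have : form β c * form β c = -(form β c * form β c) := by
    unfold form
    rw [sum_mul_sum]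
    conv_rhs => rw [sum_comm]
    simp only [← sum_neg_distrib]
    refine sum_congr rfl fun S _ => sum_congr rfl fun T _ => ?_
    rw [smul_mul_smul_comm, smul_mul_smul_comm, anti (S.2.symm ▸ hd) (T.2.symm ▸ hd), mul_comm,
      smul_neg]
  have h2 : (2 : K) • (form β c * form β c) = 0 := by
    rw [two_smul]
    exact add_eq_zero_iff_eq_neg.2 this
  exact (smul_eq_zero.1 h2).resolve_left two_ne_zero

theorem inj [CharZero K] {d r : ℕ} (hd : Odd d) (U : Fin (r + 1) → Finset (Fin n))
    (hU : ∀ j, (U j).card = d) (hdis : ∀ i j, i ≠ j → Disjoint (U i) (U j))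
    (c : {S : Finset (Fin n) // S.card = d} → K) (hc : AlgebraicIndependent ℚ c)
    {g : ExteriorAlgebra K V} (hg : g ∈ ⋀[K]^r V)
    (h0 : form β c * (∑ j, ct β (U j)) g + (∑ j, ct β (U j)) (form β c * g) = 0) : g = 0 := by
  classical
  set h := ∑ j, ct β (U j) with hh
  have hL : ∀ S, h (mono β S) ∈ Lat β := fun S => by
    rw [hh, LinearMap.sum_apply]
    exact sum_mem fun j _ => Lat_ct _ _
  have := fun (s : {S : Finset (Fin n) // S.card = d}) (T S : {S : Finset (Fin n) // S.card = r}) =>
    Lat_int (add_mem (Lat_map (LinearMap.mulLeft K (mono β s.1)) (Lat_mul s.1) (hL S.1))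
      (Lat_map h hL (Lat_mul s.1 S.1))) T.1
  choose a ha using this
  simp only [LinearMap.mulLeft_apply] at ha
  let Mx : Matrix {S : Finset (Fin n) // S.card = r} {S : Finset (Fin n) // S.card = r}
      (MvPolynomial {S : Finset (Fin n) // S.card = d} ℚ) :=
    Matrix.of fun T S => ∑ s, MvPolynomial.X s * (a s T S : MvPolynomial _ ℚ)
  have ev : ∀ (c : {S : Finset (Fin n) // S.card = d} → K) T S,
      ((MvPolynomial.aeval c).toRingHom.mapMatrix Mx) T S =
        (B β).repr (form β c * h (mono β S.1) + h (form β c * mono β S.1)) T.1 := by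
    intro c T S
    simp only [form, sum_mul, map_sum, ← sum_add_distrib, smul_mul_assoc, map_smul, ← smul_add,
      Finsupp.finsetSum_apply, Finsupp.smul_apply, ha]
    simp [Mx]
  have d0 : Mx.det ≠ 0 := by
    intro hz
    let c0 : {S : Finset (Fin n) // S.card = d} → K :=
      fun s => ∑ j, if s = ⟨U j, hU j⟩ then 1 else 0
    have f0 : form β c0 = ∑ j, mono β (U j) := by
      simp only [form, c0, sum_smul]
      rw [sum_comm]
      simp
    let w : Finset (Fin n) → ℕ := fun S =>
      ∑ j, ((if U j ⊆ S then 1 else 0) + if Disjoint (U j) S then 1 else 0)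
    have e1 : ∀ S, form β c0 * h (mono β S) + h (form β c0 * mono β S) = (w S : K) • mono β S := by
      intro S
      rw [f0, hh]
      simp only [LinearMap.sum_apply, sum_mul, mul_sum, map_sum, w, Nat.cast_sum, sum_smul]
      rw [sum_comm (f := fun i j => ct β (U j) (mono β (U i) * mono β S)), ← sum_add_distrib]
      refine sum_congr rfl fun j _ => ?_
      rw [← sum_add_distrib, ← diag]
      refine sum_eq_single j (fun i _ hi => ?_) (by simp)
      exact offdiag (hdis j i hi.symm) ((hU j).symm ▸ hd) ((hU i).symm ▸ hd) S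
    have e2 : (MvPolynomial.aeval c0).toRingHom.mapMatrix Mx =
        Matrix.diagonal fun S => (w S.1 : K) := by
      ext T S
      rw [ev, e1, map_smul, ← B_eq, Module.Basis.repr_self, Matrix.diagonal_apply]
      by_cases hTS : T = S
      · simp [hTS]
      · have : S.1 ≠ T.1 := fun e => hTS (Subtype.ext e.symm)
        simp [hTS, this]
    have e3 := RingHom.map_det (MvPolynomial.aeval c0).toRingHom Mx
    rw [hz, map_zero, e2, Matrix.det_diagonal] at e3
    obtain ⟨S, -, hS⟩ := prod_eq_zero_iff.1 e3.symm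
    have e4 : w S.1 = 0 := by exact_mod_cast hS
    have e5 : ∀ j, ∃ x, x ∈ U j ∧ x ∈ S.1 := fun j => by
      have := sum_eq_zero_iff.1 e4 j (mem_univ j)
      refine not_disjoint_iff.1 fun hj => ?_
      simp [hj] at this
    choose x x1 x2 using e5
    have e6 := card_le_card_of_injOn (s := univ) (t := S.1) x (fun j _ => x2 j)
      fun i _ j _ e => by
        by_contra hij
        exact disjoint_left.1 (hdis i j hij) (x1 i) (e ▸ x1 j)
    rw [S.2] at e6
    simp at e6
  have d1 : ((MvPolynomial.aeval c).toRingHom.mapMatrix Mx).det ≠ 0 := by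
    rw [← RingHom.map_det]
    exact fun e => d0 (hc (by simpa using e))
  obtain ⟨v, rfl⟩ := expand (β := β) hg
  have : v = 0 := by
    refine Matrix.eq_zero_of_mulVec_eq_zero d1 (funext fun T => ?_)
    have := congrArg (fun y => (B β).repr y T.1) h0
    simp only [Matrix.mulVec, dotProduct, ev]
    rw [form.eq_1 β v] at this
    simp only [mul_sum, map_sum, ← sum_add_distrib, mul_smul_comm, map_smul, ← smul_add,
      Finsupp.finsetSum_apply, Finsupp.smul_apply, smul_eq_mul, map_zero, Finsupp.zero_apply]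
      at this
    simpa [mul_comm] using this
  simp [this, form]

theorem result (d : ℕ) (hd : Odd d) (r : ℕ) : ∃ N : ℕ, ∀ n ≥ N,
    ∀ (K : Type) [Field K] [CharZero K] (V : Type) [AddCommGroup V] [Module K V]
      (x : Module.Basis (Fin n) K V) (c : {S : Finset (Fin n) // S.card = d} → K),
      AlgebraicIndependent ℚ c → HomologyZero (form x c) d r := by
  refine ⟨(r + 1) * d, fun n hn K _ _ V _ _ β c hc g hg h0 => ?_⟩
  obtain ⟨e⟩ : Nonempty (Fin (r + 1) × Fin d ↪ Fin n) :=
    Function.Embedding.nonempty_of_card_le (by simpa using hn)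
  let U : Fin (r + 1) → Finset (Fin n) := fun j =>
    univ.map ⟨fun k => e (j, k), fun a b h => by simpa using e.injective h⟩
  have hU : ∀ j, (U j).card = d := fun j => by simp [U]
  have hdis : ∀ i j, i ≠ j → Disjoint (U i) (U j) := by
    intro i j hij
    rw [disjoint_left]
    intro x h1 h2
    obtain ⟨a, -, rfl⟩ := mem_map.1 h1
    obtain ⟨b, -, hb⟩ := mem_map.1 h2
    exact hij (congrArg Prod.fst (e.injective hb)).symm
  set h := ∑ j, ct β (U j) with hh
  have hdeg : ∀ x ∈ ⋀[K]^r V, h x ∈ ⋀[K]^(r - d) V ∧ (r < d → h x = 0) := by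
    intro x hx
    obtain ⟨v, rfl⟩ := expand (β := β) hx
    simp only [form, map_sum, map_smul, hh, LinearMap.sum_apply, ct_mono]
    constructor
    · refine Submodule.sum_mem _ fun S _ => Submodule.smul_mem _ _
        (Submodule.sum_mem _ fun j _ => ?_)
      split_ifs with h1
      · refine Submodule.smul_mem _ _ ?_
        have := mono_mem (β := β) (S.1 \ U j)
        rwa [card_sdiff_of_subset h1, S.2, hU] at this
      · exact zero_mem _
    · intro hr
      refine sum_eq_zero fun S _ => ?_
      rw [sum_eq_zero, smul_zero]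
      intro j _
      rw [if_neg]
      intro h1
      have := card_le_card h1
      rw [S.2, hU] at this
      omega
  have : Module.Finite K (ExteriorAlgebra K V) := Module.Finite.of_basis (B β)
  let Z := ⋀[K]^r V ⊓ LinearMap.ker (LinearMap.mulLeft K (form β c))
  let L : Module.End K (ExteriorAlgebra K V) := LinearMap.mulLeft K (form β c) ∘ₗ h
  have hZ : ∀ x ∈ Z, L x ∈ Z := by
    intro x hx
    refine ⟨?_, ?_⟩
    · show form β c * h x ∈ _
      rcases lt_or_ge r d with h1 | h1
      · rw [(hdeg x hx.1).2 h1, mul_zero]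
        exact zero_mem _
      · have := SetLike.mul_mem_graded (A := fun i : ℕ => ⋀[K]^i V) (form_mem (β := β) c)
          (hdeg x hx.1).1
        rwa [show d + (r - d) = r by omega] at this
    · show form β c * (form β c * h x) = 0
      rw [← mul_assoc, form_sq hd, zero_mul]
  have hi : Function.Injective (L.restrict hZ) := by
    rw [← LinearMap.ker_eq_bot, LinearMap.ker_eq_bot']
    intro x hx
    refine Subtype.ext (inj (β := β) hd U hU hdis c hc x.2.1 ?_)
    have h1 : form β c * x.1 = 0 := x.2.2
    rw [h1, map_zero, add_zero]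
    exact congrArg Subtype.val hx
  obtain ⟨x, hx⟩ := LinearMap.injective_iff_surjective.1 hi ⟨g, hg, h0⟩
  have hx' : form β c * h x.1 = g := congrArg Subtype.val hx
  exact ⟨fun h1 => by rw [← hx', (hdeg _ x.2.1).2 h1, mul_zero],
    fun _ => ⟨_, (hdeg _ x.2.1).1, hx'.symm⟩⟩

end Pool.Agent.Results.MP_a0e599_al.Vanishing
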